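import Pool.Agent.H31.XCE.Targets

set_option autoImplicit false

open Finset Pool.Agent.H31.XCE

namespace Pool.Agent.H61.XCE

open Classical in
theorem pf_MKV (hG : T_GEN) : T_MKV := by
  intro k S M m Y L P ε κ Q A B w hε hκ hS hQ hX hw hM hm hst hmS
  set bad := (Ico Y (Y + L)).filter fun y => ∃ F G : ℤ → ℂ, Bd F ∧ Bd G ∧
    ε * M * LL Q < ‖TT Q S M A B w y F G‖ with hbad
  -- the choice of the functions
  have hch : ∀ y : ℕ, ∃ F G : ℤ → ℂ, Bd F ∧ Bd G ∧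
      (y ∈ bad → ε * M * LL Q < ‖TT Q S M A B w y F G‖) := by
    intro y
    by_cases h : ∃ F G : ℤ → ℂ, Bd F ∧ Bd G ∧ ε * M * LL Q < ‖TT Q S M A B w y F G‖
    · obtain ⟨F, G, h1, h2, h3⟩ := h
      exact ⟨F, G, h1, h2, fun _ => h3⟩
    · refine ⟨fun _ => 0, fun _ => 0, fun _ => by simp, fun _ => by simp, fun hy => ?_⟩
      rw [hbad, mem_filter] at hy
      exact absurd hy.2 h
  choose F G hF hGb hFG using hch
  set n : ℕ := 4 * 2 ^ k with hn
  have hSR : (1 : ℝ) ≤ S := by exact_mod_cast hS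
  have hlam : 0 < LL Q := by
    by_contra hcon
    push Not at hcon
    have : (S : ℝ) * LL Q ≤ 0 := mul_nonpos_of_nonneg_of_nonpos (by linarith) hcon
    linarith
  have hMR : (1 : ℝ) ≤ M := by exact_mod_cast hM
  have hmR : (1 : ℝ) ≤ m := by exact_mod_cast hm
  set T : ℝ := ε * M * LL Q with hT
  have hT0 : 0 < T := by positivity
  set X : ℝ := S * LL Q with hXd
  have hX0 : 0 < X := by linarith
  set E : ℝ := (S : ℝ) * (2 * (P : ℝ) ^ 2) with hE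
  have hE0 : 0 ≤ E := by positivity
  set A0 : ℝ := 3 * (8 * 2 ^ k) ^ (4 * 2 ^ k) with hA0
  have hA00 : 0 ≤ A0 := by positivity
  have key := hG k S M m Y L P Q A B w F G hS hQ hX hw hF hGb hst
  have h1 : ((bad.card : ℕ) : ℝ) * T ^ n ≤
      ∑ y ∈ Ico Y (Y + L), ‖TT Q S M A B w y (F y) (G y)‖ ^ n := by
    calc ((bad.card : ℕ) : ℝ) * T ^ n = ∑ _y ∈ bad, T ^ n := by
          rw [sum_const, nsmul_eq_mul]
      _ ≤ ∑ y ∈ bad, ‖TT Q S M A B w y (F y) (G y)‖ ^ n :=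
          sum_le_sum fun y hy => pow_le_pow_left₀ hT0.le (hFG y hy).le _
      _ ≤ ∑ y ∈ Ico Y (Y + L), ‖TT Q S M A B w y (F y) (G y)‖ ^ n :=
          sum_le_sum_of_subset_of_nonneg (filter_subset _ _) fun _ _ _ => by positivity
  have h2 := h1.trans key
  have h3 : (2 * (m : ℝ) + 1) ^ (n + 1) ≤ (3 * (m : ℝ)) * (3 * (m : ℝ)) ^ n := by
    rw [← pow_succ']
    exact pow_le_pow_left₀ (by positivity) (by linarith) _
  have h4 : 3 * (m : ℝ) * X ≤ 3 * κ / ε * T := by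
    have e1 : 3 * κ / ε * T = 3 * (κ * M) * LL Q := by
      rw [hT]; field_simp
    rw [e1, hXd]
    have e2 := mul_le_mul_of_nonneg_right hmS hlam.le
    nlinarith
  have h5 : (3 * (m : ℝ)) ^ n * X ^ n ≤ (3 * κ / ε) ^ n * T ^ n := by
    rw [← mul_pow, ← mul_pow]
    exact pow_le_pow_left₀ (by positivity) h4 _
  set W : ℝ := (L : ℝ) * (A0 * X ^ (2 * 2 ^ k)) + E ^ n with hW
  have hW0 : 0 ≤ W := by positivity
  have h6 : ((bad.card : ℕ) : ℝ) * X ^ n ≤ 3 * (m : ℝ) * (3 * κ / ε) ^ n * W := by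
    have hTn : 0 < T ^ n := by positivity
    have h7 : ((bad.card : ℕ) : ℝ) * X ^ n * T ^ n ≤ 3 * (m : ℝ) * (3 * κ / ε) ^ n * W * T ^ n := by
      calc ((bad.card : ℕ) : ℝ) * X ^ n * T ^ n = ((bad.card : ℕ) : ℝ) * T ^ n * X ^ n := by ring
        _ ≤ (2 * (m : ℝ) + 1) ^ (n + 1) * W * X ^ n :=
            mul_le_mul_of_nonneg_right h2 (by positivity)
        _ ≤ (3 * (m : ℝ)) * (3 * (m : ℝ)) ^ n * W * X ^ n := by
            refine mul_le_mul_of_nonneg_right (mul_le_mul_of_nonneg_right h3 hW0) (by positivity)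
        _ = (3 * (m : ℝ)) * W * ((3 * (m : ℝ)) ^ n * X ^ n) := by ring
        _ ≤ (3 * (m : ℝ)) * W * ((3 * κ / ε) ^ n * T ^ n) :=
            mul_le_mul_of_nonneg_left h5 (by positivity)
        _ = 3 * (m : ℝ) * (3 * κ / ε) ^ n * W * T ^ n := by ring
    exact le_of_mul_le_mul_right h7 hTn
  have hXn : X ^ n = X ^ (2 * 2 ^ k) * X ^ (2 * 2 ^ k) := by
    rw [← pow_add, hn]; congr 1; ring
  have hXn1 : 1 ≤ X ^ n := one_le_pow₀ hX
  have hXh : 0 < X ^ (2 * 2 ^ k) := by positivity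
  have h8 : W ≤ ((L : ℝ) * (A0 / X ^ (2 * 2 ^ k)) + E ^ n) * X ^ n := by
    have e1 : (L : ℝ) * (A0 / X ^ (2 * 2 ^ k)) * X ^ n = (L : ℝ) * (A0 * X ^ (2 * 2 ^ k)) := by
      rw [hXn]; field_simp
    have e2 : E ^ n ≤ E ^ n * X ^ n := le_mul_of_one_le_right (by positivity) hXn1
    rw [add_mul, e1, hW]
    linarith
  have h9 : ((bad.card : ℕ) : ℝ) * X ^ n ≤ 3 * (m : ℝ) * (3 * κ / ε) ^ n *
      ((L : ℝ) * (A0 / X ^ (2 * 2 ^ k)) + E ^ n) * X ^ n := by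
    refine h6.trans ?_
    rw [mul_assoc (3 * (m : ℝ) * (3 * κ / ε) ^ n)]
    exact mul_le_mul_of_nonneg_left h8 (by positivity)
  exact le_of_mul_le_mul_right h9 (by positivity)

end Pool.Agent.H61.XCE
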